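import Pool.Agent.Lib.MP_144d21_co.XU.Iface

/-!
# MP_144d21_co, project XU, modules CUTCONN, DEL2, DEGGE
-/

set_option autoImplicit false

namespace Pool.Agent.Xu.H43

open Finset

variable {V : Type} [DecidableEq V]

theorem conn3 {G : SimpleGraph V} {S : Finset V} (h : ThreeConn G S) (R : Finset V)
    (hR : R ⊆ S) (hc : R.card ≤ 2) : Conn G (S \ R) := by
  obtain ⟨h4, ⟨-, h1, h2⟩, h3⟩ := h
  have hcases : R.card = 0 ∨ R.card = 1 ∨ R.card = 2 := by omega
  rcases hcases with h0 | h0 | h0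
  · rw [card_eq_zero] at h0
    rw [h0, sdiff_empty]; exact h1
  · obtain ⟨a, rfl⟩ := card_eq_one.1 h0
    rw [sdiff_singleton_eq_erase]
    exact h2 a (hR (mem_singleton_self a))
  · obtain ⟨a, b, hab, rfl⟩ := card_eq_two.1 h0
    have hh := h3 a (hR (by simp)) b (hR (by simp)) hab
    have he : S \ {a, b} = (S.erase a).erase b := by
      ext t
      simp only [mem_sdiff, mem_insert, mem_singleton, mem_erase]
      tauto
    rw [he]; exact hh

theorem two_of {G : SimpleGraph V} {S : Finset V} (h2 : 2 ≤ S.card)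
    (h : ∀ R ⊆ S, R.card ≤ 1 → Conn G (S \ R)) : TwoConn G S := by
  refine ⟨h2, ?_, fun v hv => ?_⟩
  · have := h ∅ (empty_subset S) (by simp)
    rwa [sdiff_empty] at this
  · have := h {v} (singleton_subset_iff.2 hv) (by simp)
    rwa [sdiff_singleton_eq_erase] at this

theorem side {G : SimpleGraph V} {S1 S2 R B : Finset V} {x y : V}
    (hc : Conn G ((S1 ∪ S2) \ R)) (hi : S1 ∩ S2 = {x, y}) (hs : Sep G S1 S2)
    (hB : B ⊆ S1 \ R) (hB0 : B.Nonempty) (hB1 : B ≠ S1 \ R) (hx : x ∉ B) (hy : y ∉ B) :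
    ∃ a ∈ B, ∃ b ∈ S1 \ R, b ∉ B ∧ G.Adj a b := by
  have hB2 : B ⊆ (S1 ∪ S2) \ R := fun a ha => by
    have := hB ha
    rw [mem_sdiff] at this ⊢
    exact ⟨mem_union_left _ this.1, this.2⟩
  have hB3 : B ≠ (S1 ∪ S2) \ R := by
    intro h
    apply hB1
    refine subset_antisymm hB ?_
    rw [h]
    exact sdiff_subset_sdiff subset_union_left (subset_refl R)
  obtain ⟨a, ha, b, hb, hbB, hab⟩ := hc.2 B hB2 hB0 hB3
  refine ⟨a, ha, b, ?_, hbB, hab⟩
  rw [mem_sdiff, mem_union] at hb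
  rw [mem_sdiff]
  refine ⟨?_, hb.2⟩
  by_contra hb1
  have hb2 : b ∈ S2 := hb.1.resolve_left hb1
  have ha1 : a ∈ S1 := (mem_sdiff.1 (hB ha)).1
  refine hs a ha1 ?_ b hb2 hb1 hab
  intro ha2
  have : a ∈ S1 ∩ S2 := mem_inter.2 ⟨ha1, ha2⟩
  rw [hi, mem_insert, mem_singleton] at this
  rcases this with rfl | rfl
  · exact hx ha
  · exact hy ha

theorem cut_aux {G : SimpleGraph V} {S1 S2 R : Finset V} {x y : V}
    (hc : Conn G ((S1 ∪ S2) \ R)) (hi : S1 ∩ S2 = {x, y}) (hxy : x ≠ y) (hs : Sep G S1 S2)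
    (hne : (S1 \ R).Nonempty) : Conn (add G x y) (S1 \ R) := by
  refine ⟨hne, fun A hA hA0 hA1 => ?_⟩
  -- the complement
  have hadd : ∀ a b, G.Adj a b → (add G x y).Adj a b := fun a b h => Or.inl h
  have hfirst : x ∉ A → y ∉ A → ∃ a ∈ A, ∃ b ∈ S1 \ R, b ∉ A ∧ (add G x y).Adj a b := by
    intro hx hy
    obtain ⟨a, ha, b, hb, hbA, hab⟩ := side hc hi hs hA hA0 hA1 hx hy
    exact ⟨a, ha, b, hb, hbA, hadd a b hab⟩
  have hsecond : x ∉ (S1 \ R) \ A → y ∉ (S1 \ R) \ A →
      ∃ a ∈ A, ∃ b ∈ S1 \ R, b ∉ A ∧ (add G x y).Adj a b := by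
    intro hx hy
    have h0 : ((S1 \ R) \ A).Nonempty := by
      rw [nonempty_iff_ne_empty]
      intro h
      exact hA1 (subset_antisymm hA (sdiff_eq_empty_iff_subset.1 h))
    have h1 : (S1 \ R) \ A ≠ S1 \ R := by
      intro h
      obtain ⟨a, ha⟩ := hA0
      have := hA ha
      rw [← h, mem_sdiff] at this
      exact this.2 ha
    obtain ⟨a, ha, b, hb, hbA, hab⟩ := side hc hi hs sdiff_subset h0 h1 hx hy
    rw [mem_sdiff] at ha
    have hbA' : b ∈ A := by
      by_contra h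
      exact hbA (mem_sdiff.2 ⟨hb, h⟩)
    exact ⟨b, hbA', a, ha.1, ha.2, hadd b a hab.symm⟩
  by_cases hx : x ∈ A
  · by_cases hy : y ∈ (S1 \ R) \ A
    · rw [mem_sdiff] at hy
      exact ⟨x, hx, y, hy.1, hy.2, Or.inr ⟨hxy, Or.inl ⟨rfl, rfl⟩⟩⟩
    · exact hsecond (fun h => (mem_sdiff.1 h).2 hx) hy
  · by_cases hy : y ∈ A
    · by_cases hx' : x ∈ (S1 \ R) \ A
      · rw [mem_sdiff] at hx'
        exact ⟨y, hy, x, hx'.1, hx'.2, Or.inr ⟨hxy.symm, Or.inr ⟨rfl, rfl⟩⟩⟩
      · exact hsecond hx' (fun h => (mem_sdiff.1 h).2 hy)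
    · exact hfirst hx hy

theorem cutconn : CutconnS := by
  intro V _ _ G S1 S2 x y h2 hi hxy hs
  have hx : x ∈ S1 ∩ S2 := by rw [hi]; simp
  have hy : y ∈ S1 ∩ S2 := by rw [hi]; simp
  rw [mem_inter] at hx hy
  have hcard : 2 ≤ S1.card := by
    have : ({x, y} : Finset V) ⊆ S1 := by
      intro a ha
      rw [mem_insert, mem_singleton] at ha
      rcases ha with rfl | rfl
      · exact hx.1
      · exact hy.1
    have h3 := card_le_card this
    rwa [card_pair hxy] at h3
  refine two_of hcard fun R hR hR1 => ?_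
  refine cut_aux ?_ hi hxy hs ?_
  · have hcases : R.card = 0 ∨ R.card = 1 := by omega
    rcases hcases with h0 | h0
    · rw [card_eq_zero] at h0
      rw [h0, sdiff_empty]; exact h2.2.1
    · obtain ⟨a, rfl⟩ := card_eq_one.1 h0
      rw [sdiff_singleton_eq_erase]
      exact h2.2.2 a (mem_union_left _ (hR (mem_singleton_self a)))
  · rw [← card_pos, card_sdiff_of_subset hR]
    omega

theorem degge : DeggeS := by
  intro V _ _ G S v h hv
  by_contra hcon
  have hR : nb G S v ⊆ S := fun a ha => (mem_nb.1 ha).1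
  have hc := conn3 h (nb G S v) hR (by omega)
  have h4 := h.1
  have hcard : 2 ≤ (S \ nb G S v).card := by
    rw [card_sdiff_of_subset hR]
    omega
  have hvR : v ∉ nb G S v := fun h' => G.loopless.irrefl v (mem_nb.1 h').2
  obtain ⟨a, ha, b, hb, hba, hab⟩ := hc.2 {v} (singleton_subset_iff.2 (mem_sdiff.2 ⟨hv, hvR⟩))
    (singleton_nonempty v) (by
      intro h'
      rw [← h', card_singleton] at hcard
      omega)
  rw [mem_singleton] at ha
  subst ha
  rw [mem_sdiff] at hb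
  exact hb.2 (mem_nb.2 ⟨hb.1, hab⟩)

/-- one side of a cut of `G - vw` -/
theorem del_aux {G : SimpleGraph V} {S : Finset V} (h : ThreeConn G S) {R A : Finset V}
    {v w : V} (hR : R ⊆ S) (hR1 : R.card ≤ 1) (hA : A ⊆ S \ R)
    (hno : ∀ a ∈ A, ∀ b ∈ S \ R, b ∉ A → ¬ (del G v w).Adj a b)
    (hv : v ∈ A) (hw : w ∈ S \ R) (hwA : w ∉ A) : False := by
  have h4 := h.1
  have hcard : 3 ≤ (S \ R).card := by
    rw [card_sdiff_of_subset hR]
    omega
  have hsum : A.card + ((S \ R) \ A).card = (S \ R).card := by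
    rw [card_sdiff_of_subset hA]
    have := card_le_card hA
    omega
  have hvS : v ∈ S \ R := hA hv
  rw [mem_sdiff] at hvS hw
  have hcases : 2 ≤ A.card ∨ 2 ≤ ((S \ R) \ A).card := by omega
  rcases hcases with h2 | h2
  · -- remove v
    have hc := conn3 h (insert v R) (insert_subset hvS.1 hR)
      ((card_insert_le v R).trans (by omega))
    obtain ⟨a, ha, b, hb, hbA, hab⟩ := hc.2 (A.erase v) (by
        intro a ha
        rw [mem_erase] at ha
        have := hA ha.2
        rw [mem_sdiff] at this ⊢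
        rw [mem_insert]
        exact ⟨this.1, fun h' => h'.elim ha.1 this.2⟩)
      (by
        rw [← card_pos, card_erase_of_mem hv]
        omega)
      (by
        intro h'
        have : w ∈ S \ insert v R := by
          rw [mem_sdiff, mem_insert]
          refine ⟨hw.1, fun h'' => h''.elim ?_ hw.2⟩
          rintro rfl
          exact hwA hv
        rw [← h', mem_erase] at this
        exact hwA this.2)
    rw [mem_erase] at ha
    rw [mem_sdiff, mem_insert, not_or] at hb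
    have hbA' : b ∉ A := fun h' => hbA (mem_erase.2 ⟨hb.2.1, h'⟩)
    refine hno a ha.2 b (mem_sdiff.2 ⟨hb.1, hb.2.2⟩) hbA' ⟨hab, ?_, ?_⟩
    · rintro ⟨rfl, rfl⟩
      exact ha.1 rfl
    · rintro ⟨rfl, rfl⟩
      exact hb.2.1 rfl
  · -- remove w
    have hc := conn3 h (insert w R) (insert_subset hw.1 hR)
      ((card_insert_le w R).trans (by omega))
    obtain ⟨a, ha, b, hb, hbA, hab⟩ := hc.2 A (by
        intro a ha
        have := hA ha
        rw [mem_sdiff] at this ⊢
        rw [mem_insert]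
        refine ⟨this.1, fun h' => h'.elim ?_ this.2⟩
        rintro rfl
        exact hwA ha) ⟨v, hv⟩
      (by
        intro h'
        have h5 : (S \ insert w R).card + 1 = (S \ R).card := by
          have h6 : S \ insert w R = (S \ R).erase w := by
            ext t
            simp only [mem_sdiff, mem_insert, mem_erase]
            tauto
          rw [h6]
          exact card_erase_add_one (mem_sdiff.2 hw)
        rw [← h'] at h5
        omega)
    rw [mem_sdiff, mem_insert, not_or] at hb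
    refine hno a ha b (mem_sdiff.2 ⟨hb.1, hb.2.2⟩) hbA ⟨hab, ?_, ?_⟩
    · rintro ⟨rfl, rfl⟩
      exact hb.2.1 rfl
    · rintro ⟨rfl, rfl⟩
      exact hwA ha

theorem del2 : Del2S := by
  intro V _ _ G S v w h hv hw hvw
  have h4 := h.1
  refine two_of (by omega) fun R hR hR1 => ?_
  have hc := conn3 h R hR (by omega)
  refine ⟨hc.1, fun A hA hA0 hA1 => ?_⟩
  by_contra hcon
  push Not at hcon
  obtain ⟨a, ha, b, hb, hbA, hab⟩ := hc.2 A hA hA0 hA1
  have h5 := hcon a ha b hb hbA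
  have h6 : (a = v ∧ b = w) ∨ (a = w ∧ b = v) := by
    by_contra h7
    rw [not_or] at h7
    exact h5 ⟨hab, h7.1, h7.2⟩
  rcases h6 with ⟨rfl, rfl⟩ | ⟨rfl, rfl⟩
  · exact del_aux h hR hR1 hA hcon ha hb hbA
  · refine del_aux (v := a) (w := b) h hR hR1 hA ?_ ha hb hbA
    intro a' ha' b' hb' hbA' hh
    exact hcon a' ha' b' hb' hbA' ⟨hh.1, hh.2.2, hh.2.1⟩

end Pool.Agent.Xu.H43
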