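import Pool.Agent.Lib.MP_144d21_co.XU.Iface

/-!
# MP_144d21_co, project XU, module DICH: a 2-connected graph is 3-connected or has a cut pair
-/

set_option autoImplicit false

namespace Pool.Agent.Xu.H43

open Finset

theorem dich : DichS := by
  intro V _ _ G S hS4 h2
  by_cases h3 : ThreeConn G S
  · exact Or.inl h3
  right
  have h4 : ¬ ∀ x ∈ S, ∀ y ∈ S, x ≠ y → Conn G ((S.erase x).erase y) := fun h => h3 ⟨hS4, h2, h⟩
  push Not at h4
  obtain ⟨x, hx, y, hy, hxy, hc⟩ := h4
  set T := (S.erase x).erase y with hT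
  have hmemT : ∀ a, a ∈ T ↔ a ∈ S ∧ a ≠ x ∧ a ≠ y := by
    intro a
    rw [hT, mem_erase, mem_erase]
    tauto
  have hTne : T.Nonempty := by
    rw [← card_pos, hT, card_erase_of_mem (mem_erase.2 ⟨hxy.symm, hy⟩), card_erase_of_mem hx]
    omega
  have h5 : ¬ ∀ A ⊆ T, A.Nonempty → A ≠ T → ∃ a ∈ A, ∃ b ∈ T, b ∉ A ∧ G.Adj a b :=
    fun h => hc ⟨hTne, h⟩
  push Not at h5
  obtain ⟨A, hAT, hA, hAne, hno⟩ := h5
  have hAS : ∀ a ∈ A, a ∈ S ∧ a ≠ x ∧ a ≠ y := fun a ha => (hmemT a).1 (hAT ha)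
  refine ⟨x, y, insert x (insert y A), S \ A, hxy, ?_, ?_, ?_, ?_, ?_⟩
  · ext a
    simp only [mem_union, mem_insert, mem_sdiff]
    constructor
    · rintro ((rfl | rfl | h) | h)
      · exact hx
      · exact hy
      · exact (hAS a h).1
      · exact h.1
    · intro h
      by_cases ha : a ∈ A
      · exact Or.inl (Or.inr (Or.inr ha))
      · exact Or.inr ⟨h, ha⟩
  · ext a
    simp only [mem_inter, mem_insert, mem_sdiff, mem_singleton]
    constructor
    · rintro ⟨h | h | h, h'⟩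
      · exact Or.inl h
      · exact Or.inr h
      · exact absurd h h'.2
    · rintro (rfl | rfl)
      · exact ⟨Or.inl rfl, hx, fun h => (hAS _ h).2.1 rfl⟩
      · exact ⟨Or.inr (Or.inl rfl), hy, fun h => (hAS _ h).2.2 rfl⟩
  · intro a ha ha' b hb hb'
    simp only [mem_insert, mem_sdiff, not_and, not_not, not_or] at ha ha' hb hb'
    have haS : a ∈ S := by
      rcases ha with rfl | rfl | h
      · exact hx
      · exact hy
      · exact (hAS a h).1
    exact hno a (ha' haS) b ((hmemT b).2 ⟨hb.1, hb'.1, hb'.2.1⟩) hb.2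
  · intro h
    apply hAne
    refine subset_antisymm hAT fun a ha => ?_
    obtain ⟨h1, h2, h3⟩ := (hmemT a).1 ha
    rw [← h, mem_insert, mem_insert] at h1
    rcases h1 with h1 | h1 | h1
    · exact absurd h1 h2
    · exact absurd h1 h3
    · exact h1
  · intro h
    obtain ⟨a, ha⟩ := hA
    have h1 := (hAS a ha).1
    rw [← h, mem_sdiff] at h1
    exact h1.2 ha

end Pool.Agent.Xu.H43
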